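import Pool.Agent.N298.HS.StmB

/-!
# Project HS (Thom's group is not sofic), task KT: the group `K` has property (T)
-/

set_option autoImplicit false

namespace Pool.Agent.N46.HS

open Pool.Agent.N298.HS
open Pool.Agent.W661.RC (HasT)

section fixed

variable {K : Type} [Group K] {H : Type} [NormedAddCommGroup H] [InnerProductSpace ℂ H]

/-- displacement -/
noncomputable def Dp (u : K →* (H ≃ₗᵢ[ℂ] H)) (ξ : H) (g : K) : ℝ := ‖u g ξ - ξ‖

lemma Dp_mul (u : K →* (H ≃ₗᵢ[ℂ] H)) (ξ : H) (g h : K) : Dp u ξ (g * h) ≤ Dp u ξ g + Dp u ξ h := by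
  unfold Dp
  have e1 : u (g * h) ξ - ξ = (u g (u h ξ) - u g ξ) + (u g ξ - ξ) := by
    rw [map_mul]
    change u g (u h ξ) - ξ = _
    abel
  have e2 : ‖u g (u h ξ) - u g ξ‖ = ‖u h ξ - ξ‖ := by
    rw [← map_sub]
    exact (u g).norm_map _
  rw [e1]
  refine (norm_add_le _ _).trans ?_
  rw [e2]
  linarith

lemma Dp_inv (u : K →* (H ≃ₗᵢ[ℂ] H)) (ξ : H) (g : K) : Dp u ξ g⁻¹ = Dp u ξ g := by
  unfold Dp
  have e1 : u g (u g⁻¹ ξ) = ξ := by
    have h := congrArg (fun T : H ≃ₗᵢ[ℂ] H => T ξ) (map_mul u g g⁻¹)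
    simp only [mul_inv_cancel, map_one] at h
    exact h.symm
  have e2 : ‖u g (u g⁻¹ ξ - ξ)‖ = ‖u g⁻¹ ξ - ξ‖ := (u g).norm_map _
  rw [← e2, map_sub, e1, norm_sub_rev]

variable [CompleteSpace H]

/-- a fixed vector near a vector with small displacement -/
lemma fixed (u : K →* (H ≃ₗᵢ[ℂ] H)) (ξ : H) (hξ : ‖ξ‖ = 1) (h : ∀ g, ‖u g ξ - ξ‖ ≤ 1 / 2) :
    ∃ v : H, v ≠ 0 ∧ ∀ g, u g v = v := by
  let _ : InnerProductSpace ℝ H := InnerProductSpace.rclikeToReal ℂ H
  have hsm : ∀ (s : ℝ) (a : H), s • a = (s : ℂ) • a := fun _ _ => rfl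
  obtain ⟨S, hS⟩ : ∃ S : Set H, S = closure (convexHull ℝ (Set.range fun g => u g ξ)) := ⟨_, rfl⟩
  have hcl : IsClosed S := by rw [hS]; exact isClosed_closure
  have hcv : Convex ℝ S := by rw [hS]; exact (convex_convexHull ℝ _).closure
  have hsub : ∀ g, u g ξ ∈ S := fun g => by
    rw [hS]
    exact subset_closure (subset_convexHull ℝ _ ⟨g, rfl⟩)
  have hmin : ∀ T : Set H, IsClosed T → Convex ℝ T → (∀ g, u g ξ ∈ T) → S ⊆ T := by
    intro T h1 h2 h3
    rw [hS]
    refine closure_minimal (convexHull_min ?_ h2) h1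
    rintro _ ⟨g, rfl⟩
    exact h3 g
  have hne : S.Nonempty := ⟨u 1 ξ, hsub 1⟩
  obtain ⟨v, hvS, hv⟩ := exists_norm_eq_iInf_of_complete_convex hne hcl.isComplete hcv 0
  have hv' := (norm_eq_iInf_iff_real_inner_le_zero hcv hvS).1 hv
  refine ⟨v, ?_, fun g => ?_⟩
  · rintro rfl
    have h1 : S ⊆ Metric.closedBall ξ (1 / 2) := by
      refine hmin _ Metric.isClosed_closedBall (convex_closedBall _ _) fun g => ?_
      rw [Metric.mem_closedBall, dist_eq_norm]
      exact h g
    have h2 := h1 hvS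
    rw [Metric.mem_closedBall, dist_eq_norm, zero_sub, norm_neg, hξ] at h2
    norm_num at h2
  · -- the image is in the set
    have hpre : S ⊆ (u g) ⁻¹' S := by
      refine hmin _ (hcl.preimage (u g).continuous) ?_ fun g' => ?_
      · intro a ha b hb s t hs ht hst
        have e1 : u g (s • a + t • b) = s • u g a + t • u g b := by
          rw [map_add, hsm, hsm, hsm, hsm, map_smul, map_smul]
        change u g (s • a + t • b) ∈ S
        rw [e1]
        exact hcv ha hb hs ht hst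
      · change u g (u g' ξ) ∈ S
        have e1 : u g (u g' ξ) = u (g * g') ξ := by
          rw [map_mul]
          rfl
        rw [e1]
        exact hsub _
    have hgS : u g v ∈ S := hpre hvS
    have hn : ‖(0 : H) - u g v‖ = ⨅ w : S, ‖(0 : H) - w‖ := by
      rw [← hv, zero_sub, zero_sub, norm_neg, norm_neg]
      exact (u g).norm_map v
    have hg' := (norm_eq_iInf_iff_real_inner_le_zero hcv hgS).1 hn
    have h1 := hv' _ hgS
    have h2 := hg' _ hvS
    have h3 : inner ℝ (u g v - v) (u g v - v) ≤ (0 : ℝ) := by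
      have e1 : inner ℝ (u g v - v) (u g v - v) =
          inner ℝ (0 - v) (u g v - v) + inner ℝ (0 - u g v) (v - u g v) := by
        rw [zero_sub, zero_sub, inner_neg_left, inner_neg_left, inner_sub_left,
          ← neg_sub (u g v) v, inner_neg_right]
        ring
      rw [e1]
      linarith
    have h4 := real_inner_self_eq_norm_sq (u g v - v)
    rw [h4] at h3
    have h5 : ‖u g v - v‖ = 0 := by
      have := norm_nonneg (u g v - v)
      nlinarith
    exact sub_eq_zero.1 (norm_eq_zero.1 h5)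

end fixed

/-- the elements of the ring for which the displacement has to be small -/
def TS {R : Type} [CommRing R] (p : ℕ) (q : R) : Set R := {1, -1, 2, -2, (p : R), -(p : R), q, -q}

lemma TS_neg {R : Type} [CommRing R] {p : ℕ} {q t : R} (h : t ∈ TS p q) : -t ∈ TS p q := by
  unfold TS at *
  simp only [Set.mem_insert_iff, Set.mem_singleton_iff] at *
  rcases h with h | h | h | h | h | h | h | h <;> subst h <;> simp

lemma TS_one {R : Type} [CommRing R] (p : ℕ) (q : R) : (1 : R) ∈ TS p q := by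
  unfold TS
  simp

/-- one pair of roots -/
lemma row {p : ℕ} {δ ε : ℝ} {R : Type} [CommRing R] (q : R)
    {H : Type} [NormedAddCommGroup H] [InnerProductSpace ℂ H] {K : Type} [Group K]
    (hR : ∀ (U : R × R → (H ≃ₗᵢ[ℂ] H)) (X Y : R → (H ≃ₗᵢ[ℂ] H)),
      (∀ v w, U (v + w) = U v * U w) →
      (∀ t r s, X t * U (r, s) = U (r + t * s, s) * X t) →
      (∀ t r s, Y t * U (r, s) = U (r, s + t * r) * Y t) →
      ∀ ξ : H, ‖ξ‖ = 1 →
        (∀ t ∈ ({1, -1, 2, -2, (p : R), -(p : R), q, -q} : Set R),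
          ‖X t ξ - ξ‖ ≤ ε ∧ ‖Y t ξ - ξ‖ ≤ ε) →
        ‖U (1, 0) ξ - ξ‖ ≤ ε → ‖U (0, 1) ξ - ξ‖ ≤ ε → ∀ v, ‖U v ξ - ξ‖ ≤ δ)
    (u : K →* (H ≃ₗᵢ[ℂ] H)) (ξ : H) (hξ : ‖ξ‖ = 1) (a b c d : R → K)
    (ha : ∀ r s, a (r + s) = a r * a s) (hb : ∀ r s, b (r + s) = b r * b s)
    (hab : ∀ r s, a r * b s = b s * a r)
    (hca : ∀ t r, c t * a r = a r * c t) (hcb : ∀ t s, c t * b s = a (t * s) * b s * c t)
    (hda : ∀ t r, d t * a r = b (t * r) * a r * d t) (hdb : ∀ t s, d t * b s = b s * d t)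
    (hc : ∀ t ∈ TS p q, Dp u ξ (c t) ≤ ε) (hd : ∀ t ∈ TS p q, Dp u ξ (d t) ≤ ε)
    (ha1 : Dp u ξ (a 1) ≤ ε) (hb1 : Dp u ξ (b 1) ≤ ε) (r : R) : Dp u ξ (a r) ≤ δ := by
  have ha0 : a 0 = 1 := by
    have := ha 0 0
    rw [add_zero] at this
    exact (mul_eq_left.1 this.symm)
  have hb0 : b 0 = 1 := by
    have := hb 0 0
    rw [add_zero] at this
    exact (mul_eq_left.1 this.symm)
  have h := hR (fun v => u (a v.1 * b v.2)) (fun t => u (c t)) (fun t => u (d t)) ?_ ?_ ?_ ξ hξ ?_ ?_ ?_ (r, 0)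
  · change ‖u (a r * b 0) ξ - ξ‖ ≤ δ at h
    rw [hb0, mul_one] at h
    exact h
  · intro v w
    rw [← map_mul]
    congr 1
    change a (v.1 + w.1) * b (v.2 + w.2) = _
    rw [ha, hb]
    calc a v.1 * a w.1 * (b v.2 * b w.2) = a v.1 * (a w.1 * b v.2) * b w.2 := by simp only [mul_assoc]
      _ = a v.1 * (b v.2 * a w.1) * b w.2 := by rw [hab]
      _ = a v.1 * b v.2 * (a w.1 * b w.2) := by simp only [mul_assoc]
  · intro t r s
    change u (c t) * u (a r * b s) = u (a (r + t * s) * b s) * u (c t)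
    rw [← map_mul, ← map_mul]
    congr 1
    calc c t * (a r * b s) = (c t * a r) * b s := by rw [mul_assoc]
      _ = a r * (c t * b s) := by rw [hca, mul_assoc]
      _ = a r * (a (t * s) * b s * c t) := by rw [hcb]
      _ = a (r + t * s) * b s * c t := by rw [ha]; simp only [mul_assoc]
  · intro t r s
    change u (d t) * u (a r * b s) = u (a r * b (s + t * r)) * u (d t)
    rw [← map_mul, ← map_mul]
    congr 1
    calc d t * (a r * b s) = (d t * a r) * b s := by rw [mul_assoc]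
      _ = b (t * r) * a r * (d t * b s) := by rw [hda]; simp only [mul_assoc]
      _ = (b (t * r) * a r) * b s * d t := by rw [hdb]; simp only [mul_assoc]
      _ = a r * (b (t * r) * b s) * d t := by rw [← hab]; simp only [mul_assoc]
      _ = a r * b (s + t * r) * d t := by rw [← hb, add_comm]
  · intro t ht
    exact ⟨hc t ht, hd t ht⟩
  · change ‖u (a 1 * b 0) ξ - ξ‖ ≤ ε
    rw [hb0, mul_one]
    exact ha1
  · change ‖u (a 0 * b 1) ξ - ξ‖ ≤ ε
    rw [ha0, one_mul]
    exact hb1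

/-- a third index -/
lemma third (i j : Fin 8) (hj : 4 ≤ j.val) (hj' : j.val ≤ 6) :
    ∃ m : Fin 8, 4 ≤ m.val ∧ m.val ≤ 6 ∧ m ≠ i ∧ m ≠ j := by
  revert i j
  decide

/-- the hexagon -/
def xs : Fin 6 → Fin 8 × Fin 8 := ![(4, 5), (4, 6), (5, 6), (5, 4), (6, 4), (6, 5)]

lemma xs_surj : ∀ i j : Fin 8, 4 ≤ i.val → i.val ≤ 6 → 4 ≤ j.val → j.val ≤ 6 → i ≠ j →
    ∃ k : Fin 6, (xs k).1 = i ∧ (xs k).2 = j := by
  unfold xs
  decide

instance (i j : Fin 8) : Decidable (RK i j) := by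
  unfold RK
  infer_instance

lemma add_zero' {R K : Type} [CommRing R] [Group K] {a : R → K} (ha : ∀ r s, a (r + s) = a r * a s) :
    a 0 = 1 := by
  have := ha 0 0
  rw [add_zero] at this
  exact (mul_eq_left.1 this.symm)

lemma add_neg' {R K : Type} [CommRing R] [Group K] {a : R → K} (ha : ∀ r s, a (r + s) = a r * a s)
    (r : R) : a (-r) = (a r)⁻¹ := by
  rw [eq_inv_iff_mul_eq_one, ← ha, neg_add_cancel, add_zero' ha]

theorem t_kt (h1 : S_REL) (h2 : S_HEX) (h3 : S_BG) : S_KT := by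
  classical
  intro p hp R _ _ q hpq hden K _ x hx hgen H _ _ _ π hπ
  obtain ⟨C, hC, h2⟩ := h2
  obtain ⟨C', hC'⟩ : ∃ C' : ℝ, C' = max C 1 := ⟨_, rfl⟩
  have hC1 : 1 ≤ C' := by rw [hC']; exact le_max_right _ _
  have hCC : C ≤ C' := by rw [hC']; exact le_max_left _ _
  obtain ⟨δ, hδ⟩ : ∃ δ : ℝ, δ = 1 / (160 * C') := ⟨_, rfl⟩
  have hδ0 : 0 < δ := by rw [hδ]; positivity
  obtain ⟨ε, hε, h1⟩ := h1 p hp δ hδ0
  obtain ⟨u, hu⟩ : ∃ u : K →* (H ≃ₗᵢ[ℂ] H), ∀ g v, u g v = (π g : H →L[ℂ] H) v :=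
    ⟨(Unitary.linearIsometryEquiv : unitary (H →L[ℂ] H) ≃* (H ≃ₗᵢ[ℂ] H)).toMonoidHom.comp π,
      fun _ _ => rfl⟩
  obtain ⟨T, hT⟩ : ∃ T : Finset R, T = {1, -1, 2, -2, (p : R), -(p : R), q, -q} := ⟨_, rfl⟩
  obtain ⟨ξ, hξ, hF⟩ := hπ ((Finset.univ ×ˢ (Finset.univ ×ˢ T)).image
    (fun z : Fin 8 × (Fin 8 × R) => x z.1 z.2.1 z.2.2)) ε hε
  have hsmall : ∀ i j, ∀ t ∈ TS p q, Dp u ξ (x i j t) ≤ ε := by
    intro i j t ht
    have h4 := hF (x i j t) (Finset.mem_image.2 ⟨(i, (j, t)), by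
      rw [Finset.mem_product, Finset.mem_product]
      refine ⟨Finset.mem_univ _, Finset.mem_univ _, ?_⟩
      change t ∈ T
      rw [hT]
      unfold TS at ht
      simpa using ht, rfl⟩)
    unfold Dp
    rw [hu]
    exact h4.le
  have hR := h1 R q hpq hden H
  have hRK : ∀ i j, RK i j → i.val ≤ 6 ∧ 4 ≤ j.val ∧ i ≠ j := fun i j h => h
  -- rows
  have hrow : ∀ i j r, RK i j → j.val ≤ 6 → Dp u ξ (x i j r) ≤ δ := by
    intro i j r hij hj6
    obtain ⟨hi6, hj4, hne⟩ := hRK i j hij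
    obtain ⟨m, hm4, hm6, hmi, hmj⟩ := third i j hj4 hj6
    have him : RK i m := ⟨hi6, hm4, hmi.symm⟩
    have hmjR : RK m j := ⟨hm6, hj4, hmj⟩
    have hjm : RK j m := ⟨hj6, hm4, hmj.symm⟩
    refine row q hR u ξ hξ (x i j) (x i m) (fun t => x m j (-t)) (fun t => x j m (-t))
      (hx.add i j hij) (hx.add i m him) (hx.com i j i m hij him hne.symm hmi.symm)
      (fun t r => hx.com m j i j hmjR hij hne.symm hmj _ _) ?_ ?_
      (fun t s => hx.com j m i m hjm him hmi hmj.symm _ _)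
      (fun t ht => hsmall _ _ _ (TS_neg ht)) (fun t ht => hsmall _ _ _ (TS_neg ht))
      (hsmall _ _ _ (TS_one p q)) (hsmall _ _ _ (TS_one p q)) r
    · intro t s
      have h4 := hx.mul i m j him hmjR hne s (-t)
      have h5 : x i j (s * -t) = (x i j (t * s))⁻¹ := by
        rw [← add_neg' (hx.add i j hij)]
        congr 1
        ring
      rw [h5] at h4
      calc x m j (-t) * x i m s = x i j (t * s) * ((x i j (t * s))⁻¹ * x m j (-t) * x i m s) := by group
        _ = x i j (t * s) * x i m s * x m j (-t) := by rw [← h4, mul_assoc]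
    · intro t r
      have h4 := hx.mul i j m hij hjm hmi.symm r (-t)
      have h5 : x i m (r * -t) = (x i m (t * r))⁻¹ := by
        rw [← add_neg' (hx.add i m him)]
        congr 1
        ring
      rw [h5] at h4
      calc x j m (-t) * x i j r = x i m (t * r) * ((x i m (t * r))⁻¹ * x j m (-t) * x i j r) := by group
        _ = x i m (t * r) * x i j r * x j m (-t) := by rw [← h4, mul_assoc]
  -- columns
  have h78 : ∀ i : Fin 8, i.val ≤ 6 → i ≠ 7 := by
    intro i hi h
    rw [h] at hi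
    norm_num at hi
  have hR7 : ∀ i : Fin 8, i.val ≤ 6 → RK i 7 := fun i hi => ⟨hi, by decide, h78 i hi⟩
  have hcol : ∀ (i : Fin 8) r, 4 ≤ i.val → i.val ≤ 6 → Dp u ξ (x i 7 r) ≤ δ := by
    intro i r hi4 hi6
    obtain ⟨m, hm4, hm6, hmi, -⟩ := third i i hi4 hi6
    have him : RK i m := ⟨hi6, hm4, hmi.symm⟩
    have hmiR : RK m i := ⟨hm6, hi4, hmi⟩
    refine row q hR u ξ hξ (x i 7) (x m 7) (x i m) (x m i)
      (hx.add i 7 (hR7 i hi6)) (hx.add m 7 (hR7 m hm6))
      (hx.com i 7 m 7 (hR7 i hi6) (hR7 m hm6) (h78 m hm6).symm (h78 i hi6))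
      (hx.com i m i 7 him (hR7 i hi6) hmi (h78 i hi6))
      (fun t s => hx.mul i m 7 him (hR7 m hm6) (h78 i hi6) t s)
      (fun t r => hx.mul m i 7 hmiR (hR7 i hi6) (h78 m hm6) t r)
      (hx.com m i m 7 hmiR (hR7 m hm6) hmi.symm (h78 m hm6))
      (fun t ht => hsmall _ _ _ ht) (fun t ht => hsmall _ _ _ ht)
      (hsmall _ _ _ (TS_one p q)) (hsmall _ _ _ (TS_one p q)) r
  -- all roots
  have hroot : ∀ i j r, RK i j → Dp u ξ (x i j r) ≤ 4 * δ := by
    intro i j r hij
    obtain ⟨hi6, hj4, hne⟩ := hRK i j hij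
    by_cases hj6 : j.val ≤ 6
    · exact (hrow i j r hij hj6).trans (by linarith)
    · have hj7 : j = 7 := by
        apply Fin.ext
        have := j.2
        change j.val = 7
        omega
      subst hj7
      by_cases hi4 : 4 ≤ i.val
      · exact (hcol i r hi4 hi6).trans (by linarith)
      · have hi : RK i 4 := ⟨hi6, by decide, by
          intro h
          apply hi4
          rw [h]
          decide⟩
        have h47 : RK 4 7 := by decide
        have h4 := hx.mul i 4 7 hi h47 (h78 i hi6) r 1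
        rw [mul_one] at h4
        have h5 : x i 7 r = x i 4 r * x 4 7 1 * (x i 4 r)⁻¹ * (x 4 7 1)⁻¹ := by
          rw [h4]
          group
        rw [h5]
        have g1 := hrow i 4 r hi (by decide)
        have g2 := hcol 4 1 (by decide) (by decide)
        have k1 := Dp_mul u ξ (x i 4 r * x 4 7 1 * (x i 4 r)⁻¹) (x 4 7 1)⁻¹
        have k2 := Dp_mul u ξ (x i 4 r * x 4 7 1) (x i 4 r)⁻¹
        have k3 := Dp_mul u ξ (x i 4 r) (x 4 7 1)
        rw [Dp_inv] at k1 k2
        linarith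
  -- the group `E`
  have r45 : RK 4 5 := by decide
  have r46 : RK 4 6 := by decide
  have r56 : RK 5 6 := by decide
  have r54 : RK 5 4 := by decide
  have r64 : RK 6 4 := by decide
  have r65 : RK 6 5 := by decide
  have hxsR : ∀ k, RK (xs k).1 (xs k).2 ∧ (xs k).2.val ≤ 6 := by
    unfold xs
    decide
  have hopp : ∀ (i j l : Fin 8) (hij : RK i j) (hjl : RK j l) (hil : RK i l) (hne : i ≠ l) (r s : R),
      i ≠ j → j ≠ l →
      x j l r * x i j s = x i l (-1 * r * s) * x i j s * x j l r := by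
    intro i j l hij hjl hil hne r s hn1 hn2
    have h4 := hx.mul i j l hij hjl hne s r
    have h5 : x i l (-1 * r * s) = (x i l (s * r))⁻¹ := by
      rw [← add_neg' (hx.add i l hil)]
      congr 1
      ring
    rw [h5]
    calc x j l r * x i j s = (x i l (s * r))⁻¹ * (x i l (s * r) * x j l r * x i j s) := by group
      _ = (x i l (s * r))⁻¹ * (x i j s * x j l r) := by rw [← h4]
      _ = (x i l (s * r))⁻¹ * x i j s * x j l r := by rw [mul_assoc]
  obtain ⟨η, hη1, hη2⟩ := h2 R H (fun k r => u (x (xs k).1 (xs k).2 r)) ![1, -1, 1, -1, 1, -1]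
    (by
      intro i
      fin_cases i <;> simp)
    (by
      intro k r s
      rw [← map_mul, hx.add _ _ (hxsR k).1])
    (by
      intro k r s
      rw [← map_mul, ← map_mul]
      congr 1
      fin_cases k
      · exact hx.com 4 5 4 6 r45 r46 (by decide) (by decide) r s
      · exact hx.com 4 6 5 6 r46 r56 (by decide) (by decide) r s
      · exact hx.com 5 6 5 4 r56 r54 (by decide) (by decide) r s
      · exact hx.com 5 4 6 4 r54 r64 (by decide) (by decide) r s
      · exact hx.com 6 4 6 5 r64 r65 (by decide) (by decide) r s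
      · exact hx.com 6 5 4 5 r65 r45 (by decide) (by decide) r s)
    (by
      intro k r s
      rw [← map_mul, ← map_mul, ← map_mul]
      congr 1
      fin_cases k
      · have h4 := hx.mul 4 5 6 r45 r56 (by decide) r s
        have h5 : x 4 6 (r * s) = x 4 6 (1 * r * s) := by rw [one_mul]
        rw [h5] at h4
        exact h4
      · exact hopp 5 4 6 r54 r46 r56 (by decide) r s (by decide) (by decide)
      · have h4 := hx.mul 5 6 4 r56 r64 (by decide) r s
        have h5 : x 5 4 (r * s) = x 5 4 (1 * r * s) := by rw [one_mul]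
        rw [h5] at h4
        exact h4
      · exact hopp 6 5 4 r65 r54 r64 (by decide) r s (by decide) (by decide)
      · have h4 := hx.mul 6 4 5 r64 r45 (by decide) r s
        have h5 : x 6 5 (r * s) = x 6 5 (1 * r * s) := by rw [one_mul]
        rw [h5] at h4
        exact h4
      · exact hopp 4 6 5 r46 r65 r45 (by decide) r s (by decide) (by decide))
    δ ξ (fun k r => hrow _ _ r (hxsR k).1 (hxsR k).2)
  have hE : ∀ g ∈ Subgroup.closure {g | ∃ i j r, RK i j ∧ 4 ≤ i.val ∧ j.val ≤ 6 ∧ g = x i j r},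
      u g η = η := by
    intro g hg
    induction hg using Subgroup.closure_induction with
    | mem g hg =>
      obtain ⟨i, j, r, hij, hi4, hj6, rfl⟩ := hg
      obtain ⟨hi6, hj4, hne⟩ := hRK i j hij
      obtain ⟨k, hk1, hk2⟩ := xs_surj i j hi4 hi6 hj4 hj6 hne
      have h4 := hη2 k r
      simp only [hk1, hk2] at h4
      exact h4
    | one => rw [map_one]; rfl
    | mul g h _ _ hg hh =>
      rw [map_mul]
      change u g (u h η) = η
      rw [hh, hg]
    | inv g _ hg =>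
      have e1 : u g⁻¹ (u g η) = η := by
        have h := congrArg (fun T : H ≃ₗᵢ[ℂ] H => T η) (map_mul u g⁻¹ g)
        simp only [inv_mul_cancel, map_one] at h
        exact h.symm
      rw [hg] at e1
      exact e1
  have hE2 : ∀ g ∈ Subgroup.closure {g | ∃ i j r, RK i j ∧ 4 ≤ i.val ∧ j.val ≤ 6 ∧ g = x i j r},
      Dp u ξ g ≤ 4 * C' * δ := by
    intro g hg
    unfold Dp
    have e1 : u g ξ - ξ = u g (ξ - η) + (η - ξ) := by
      rw [map_sub, hE g hg]
      abel
    rw [e1]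
    refine (norm_add_le _ _).trans ?_
    have e2 : ‖u g (ξ - η)‖ = ‖η - ξ‖ := by
      rw [norm_sub_rev η ξ]
      exact (u g).norm_map _
    rw [e2]
    have e3 : C * δ ≤ C' * δ := mul_le_mul_of_nonneg_right hCC hδ0.le
    have e4 : 0 ≤ C' * δ := by positivity
    linarith
  have hall := h3 R K x hx hgen (Dp u ξ) (4 * C' * δ) (Dp_mul u ξ) (Dp_inv u ξ)
    (fun i j r hij => (hroot i j r hij).trans (by
      have e3 : 1 * δ ≤ C' * δ := mul_le_mul_of_nonneg_right hC1 hδ0.le
      linarith)) hE2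
  obtain ⟨v, hv0, hv⟩ := fixed u ξ hξ (fun g => (hall g).trans (by
    have e1 : 20 * (4 * C' * δ) = 1 / 2 := by
      rw [hδ]
      field_simp
      norm_num
    rw [e1]))
  exact ⟨v, hv0, fun g => by rw [← hu]; exact hv g⟩

end Pool.Agent.N46.HS
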